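import Pool.Agent.R540.ADDM.Cone

namespace Pool.Agent.R540.ADDM

open Matrix
open scoped Classical

variable {d m : ℕ} {A : Fin m → Fin d → ℝ}

/-- A mod 2 cycle of `d`-subsets of the index sets which covers generic vectors an odd number of
times. -/
structure IsChain (A : Fin m → Fin d → ℝ) {V : Type} (I : V → Finset (Fin m))
    (Z : Finset (Finset (Fin m))) : Prop where
  sub : ∀ F ∈ Z, F.card = d ∧ ∃ v, F ⊆ I v
  cyc : ∀ R : Finset (Fin m), R.card + 1 = d →
    ∑ F ∈ Z, (if R ⊆ F then (1 : ZMod 2) else 0) = 0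
  par : ∀ y, Gen A y → ∑ F ∈ Z, (if InCone A F y then (1 : ZMod 2) else 0) = 1

/-- the boundary of a set of `d`-sets -/
noncomputable def bdry (d : ℕ) (Q : Finset (Finset (Fin m))) : Finset (Finset (Fin m)) :=
  Finset.univ.filter fun R => R.card + 1 = d ∧ ∑ F ∈ Q, (if R ⊆ F then (1 : ZMod 2) else 0) = 1

theorem sum_subsets {F : Finset (Fin m)} (hF : F.card = d) (h : Finset (Fin m) → ZMod 2) :
    ∑ j ∈ F, h (F.erase j) =
      ∑ R ∈ Finset.univ.filter (fun R : Finset (Fin m) => R.card + 1 = d),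
        (if R ⊆ F then (1 : ZMod 2) else 0) * h R := by
  have h1 : ∑ R ∈ Finset.univ.filter (fun R : Finset (Fin m) => R.card + 1 = d),
        (if R ⊆ F then (1 : ZMod 2) else 0) * h R =
      ∑ R ∈ Finset.univ.filter (fun R : Finset (Fin m) => R.card + 1 = d ∧ R ⊆ F), h R := by
    rw [Finset.filter_and, ← Finset.sum_filter_of_ne (p := fun R => R ⊆ F)]
    · rw [← Finset.filter_and, ← Finset.filter_filter]
      refine Finset.sum_congr rfl fun R hR => ?_
      rw [if_pos (Finset.mem_filter.1 hR).2, one_mul]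
    · intro R _ hne
      by_contra hcon
      rw [if_neg hcon, zero_mul] at hne
      exact hne rfl
  rw [h1]
  refine Finset.sum_bij (fun j _ => F.erase j) ?_ ?_ ?_ ?_
  · intro j hj
    rw [Finset.mem_filter]
    refine ⟨Finset.mem_univ _, ?_, Finset.erase_subset _ _⟩
    rw [Finset.card_erase_of_mem hj, hF]
    have : 0 < F.card := Finset.card_pos.2 ⟨j, hj⟩
    omega
  · intro j hj k hk hjk
    by_contra hne
    have : k ∈ F.erase j := Finset.mem_erase.2 ⟨fun h => hne h.symm, hk⟩
    rw [hjk] at this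
    simp at this
  · intro R hR
    obtain ⟨-, hR1, hR2⟩ := Finset.mem_filter.1 hR
    have h2 : (F \ R).card = 1 := by
      rw [Finset.card_sdiff_of_subset hR2]
      omega
    obtain ⟨j, hj⟩ := Finset.card_eq_one.1 h2
    have hjF : j ∈ F \ R := by rw [hj]; simp
    rw [Finset.mem_sdiff] at hjF
    refine ⟨j, hjF.1, ?_⟩
    ext k
    rw [Finset.mem_erase]
    constructor
    · rintro ⟨h3, h4⟩
      by_contra h5
      have : k ∈ F \ R := Finset.mem_sdiff.2 ⟨h4, h5⟩
      rw [hj, Finset.mem_singleton] at this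
      exact h3 this
    · intro h3
      exact ⟨fun h4 => hjF.2 (h4 ▸ h3), hR2 h3⟩
  · intro j _
    rfl

theorem sum_bdry {Q : Finset (Finset (Fin m))} (hQ : ∀ F ∈ Q, F.card = d)
    (h : Finset (Fin m) → ZMod 2) :
    ∑ R ∈ bdry d Q, h R = ∑ F ∈ Q, ∑ j ∈ F, h (F.erase j) := by
  rw [Finset.sum_congr rfl fun F hF => sum_subsets (hQ F hF) h, Finset.sum_comm]
  rw [bdry, ← Finset.filter_filter, Finset.sum_filter]
  refine Finset.sum_congr rfl fun R _ => ?_
  rw [← Finset.sum_mul]
  generalize ∑ F ∈ Q, (if R ⊆ F then (1 : ZMod 2) else 0) = a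
  have : a = 0 ∨ a = 1 := by
    revert a; decide
  rcases this with h | h
  · rw [h]; simp
  · rw [h]; simp

theorem count_erase {F R : Finset (Fin m)} (i : Fin m) (hi : i ∉ F) (hF : F.card = d)
    (hR : R.card + 1 = d) :
    ∑ j ∈ F, (if R ⊆ insert i (F.erase j) then (1 : ZMod 2) else 0) =
      if i ∈ R then 0 else if R ⊆ F then 1 else 0 := by
  have h1 : ∀ j, R ⊆ insert i (F.erase j) ↔ R.erase i ⊆ F ∧ j ∉ R.erase i := by
    intro j
    rw [Finset.subset_insert_iff]
    constructor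
    · intro h
      exact ⟨h.trans (Finset.erase_subset _ _), fun hj => by simpa using h hj⟩
    · rintro ⟨h2, h3⟩ k hk
      exact Finset.mem_erase.2 ⟨fun h => h3 (h ▸ hk), h2 hk⟩
  simp only [h1]
  by_cases h2 : R.erase i ⊆ F
  · simp only [h2, true_and]
    rw [Finset.sum_boole]
    have h3 : (F.filter fun j => j ∉ R.erase i) = F \ R.erase i := by
      ext j; simp [Finset.mem_sdiff]
    rw [h3, Finset.card_sdiff_of_subset h2, hF]
    by_cases h4 : i ∈ R
    · rw [if_pos h4, Finset.card_erase_of_mem h4]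
      have : 0 < R.card := Finset.card_pos.2 ⟨i, h4⟩
      have h5 : d - (R.card - 1) = 2 := by omega
      rw [h5]
      rfl
    · rw [if_neg h4, Finset.erase_eq_of_notMem h4]
      rw [Finset.erase_eq_of_notMem h4] at h2
      rw [if_pos h2]
      have h5 : d - R.card = 1 := by omega
      rw [h5]
      rfl
  · simp only [h2, false_and, if_false, Finset.sum_const_zero]
    by_cases h4 : i ∈ R
    · rw [if_pos h4]
    · rw [if_neg h4, if_neg]
      intro h5
      exact h2 ((Finset.erase_subset _ _).trans h5)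

theorem sum_next {N Q : Finset (Finset (Fin m))} (i : Fin m) (hN : ∀ F ∈ N, i ∉ F)
    (hQi : ∀ F ∈ Q, i ∉ F) (hQ : ∀ F ∈ Q, F.card = d) (g : Finset (Fin m) → ZMod 2) :
    ∑ F ∈ N ∪ (bdry d Q).image (insert i), g F =
      ∑ F ∈ N, g F + ∑ F ∈ Q, ∑ j ∈ F, g (insert i (F.erase j)) := by
  rw [Finset.sum_union]
  · congr 1
    rw [Finset.sum_image, sum_bdry hQ fun R => g (insert i R)]
    intro R hR R' hR' h
    have key : ∀ R ∈ bdry d Q, i ∉ R := by
      intro R hR hi
      obtain ⟨-, -, h1⟩ := Finset.mem_filter.1 hR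
      have h2 : ∃ F ∈ Q, (if R ⊆ F then (1 : ZMod 2) else 0) ≠ 0 := by
        by_contra hcon
        push Not at hcon
        rw [Finset.sum_eq_zero hcon] at h1
        exact absurd h1 (by decide)
      obtain ⟨F, hF, h3⟩ := h2
      have h4 : R ⊆ F := by
        by_contra hcon
        rw [if_neg hcon] at h3
        exact h3 rfl
      exact hQi F hF (h4 hi)
    have h1 : (insert i R).erase i = (insert i R').erase i := by
      rw [h]
    rwa [Finset.erase_insert (key R hR), Finset.erase_insert (key R' hR')] at h1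
  · rw [Finset.disjoint_left]
    intro F hF hF'
    obtain ⟨R, -, hR⟩ := Finset.mem_image.1 hF'
    exact hN F hF (hR ▸ Finset.mem_insert_self i R)

/-- replacing the part `Q` of a chain by the cone over its boundary -/
theorem chain_step {V V' : Type} {I : V → Finset (Fin m)} {I' : V' → Finset (Fin m)}
    {Z : Finset (Finset (Fin m))} (hZ : IsChain A I Z) (i : Fin m)
    (hi : ∀ F ∈ Z, i ∉ F) {N Q : Finset (Finset (Fin m))} (hNQ : Disjoint N Q) (hU : N ∪ Q = Z)
    (hc : ∀ F ∈ Q, ∃ c : Fin d → ℝ, 0 < A i ⬝ᵥ c ∧ ∀ j ∈ F, 0 < A j ⬝ᵥ c)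
    (hN' : ∀ F ∈ N, ∃ v, F ⊆ I' v)
    (hB' : ∀ R : Finset (Fin m), R.card + 1 = d → ∀ F ∈ N, ∀ F' ∈ Q, R ⊆ F → R ⊆ F' →
      ∃ v, insert i R ⊆ I' v) :
    IsChain A I' (N ∪ (bdry d Q).image (insert i)) := by
  have hNi : ∀ F ∈ N, i ∉ F := fun F hF => hi F (hU ▸ Finset.mem_union_left _ hF)
  have hQi : ∀ F ∈ Q, i ∉ F := fun F hF => hi F (hU ▸ Finset.mem_union_right _ hF)
  have hNd : ∀ F ∈ N, F.card = d := fun F hF => (hZ.sub F (hU ▸ Finset.mem_union_left _ hF)).1
  have hQd : ∀ F ∈ Q, F.card = d := fun F hF => (hZ.sub F (hU ▸ Finset.mem_union_right _ hF)).1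
  have hex : ∀ (X : Finset (Finset (Fin m))) (R : Finset (Fin m)),
      ∑ F ∈ X, (if R ⊆ F then (1 : ZMod 2) else 0) = 1 → ∃ F ∈ X, R ⊆ F := by
    intro X R h1
    by_contra hcon
    push Not at hcon
    rw [Finset.sum_eq_zero fun F hF => if_neg (hcon F hF)] at h1
    exact absurd h1 (by decide)
  refine ⟨?_, ?_, ?_⟩
  · intro F hF
    rcases Finset.mem_union.1 hF with hF | hF
    · exact ⟨hNd F hF, hN' F hF⟩
    · obtain ⟨R, hR, rfl⟩ := Finset.mem_image.1 hF
      obtain ⟨-, hR1, hR2⟩ := Finset.mem_filter.1 hR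
      obtain ⟨F', hF', hRF'⟩ := hex Q R hR2
      have h1 := hZ.cyc R hR1
      rw [← hU, Finset.sum_union hNQ, hR2] at h1
      have h2 : ∑ F ∈ N, (if R ⊆ F then (1 : ZMod 2) else 0) = 1 := by
        generalize ∑ F ∈ N, (if R ⊆ F then (1 : ZMod 2) else 0) = a at h1
        revert a; decide
      obtain ⟨F, hF, hRF⟩ := hex N R h2
      refine ⟨?_, hB' R hR1 F hF F' hF' hRF hRF'⟩
      rw [Finset.card_insert_of_notMem fun h => hQi F' hF' (hRF' h), hR1]
  · intro R hR
    rw [sum_next i hNi hQi hQd,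
      Finset.sum_congr rfl fun F hF => count_erase i (hQi F hF) (hQd F hF) hR]
    by_cases h : i ∈ R
    · simp only [if_pos h, Finset.sum_const_zero, add_zero]
      refine Finset.sum_eq_zero fun F hF => if_neg fun h1 => hNi F hF (h1 h)
    · simp only [if_neg h]
      rw [← Finset.sum_union hNQ, hU]
      exact hZ.cyc R hR
  · intro y hy
    rw [sum_next i hNi hQi hQd]
    have h1 : ∀ F ∈ Q, ∑ j ∈ F, (if InCone A (insert i (F.erase j)) y then (1 : ZMod 2) else 0) =
        if InCone A F y then (1 : ZMod 2) else 0 := by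
      intro F hF
      obtain ⟨c, hc1, hc2⟩ := hc F hF
      have hiF := hQi F hF
      have hG : (insert i F).card = d + 1 := by
        rw [Finset.card_insert_of_notMem hiF, hQd F hF]
      have h2 := even_cone hy hG (c := c) (by
        intro j hj
        rcases Finset.mem_insert.1 hj with h | h
        · rw [h]; exact hc1
        · exact hc2 j h)
      have h3 : ∑ j ∈ insert i F,
          (if InCone A ((insert i F).erase j) y then (1 : ZMod 2) else 0) = 0 := by
        rw [Finset.sum_boole]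
        exact (ZMod.natCast_eq_zero_iff_even).2 h2
      rw [Finset.sum_insert hiF, Finset.erase_insert hiF] at h3
      have h4 : ∑ j ∈ F, (if InCone A ((insert i F).erase j) y then (1 : ZMod 2) else 0) =
          ∑ j ∈ F, (if InCone A (insert i (F.erase j)) y then (1 : ZMod 2) else 0) := by
        refine Finset.sum_congr rfl fun j hj => ?_
        rw [Finset.erase_insert_of_ne (fun h => hiF (by rw [h]; exact hj))]
      rw [h4] at h3
      have h5 : ∀ a b : ZMod 2, b + a = 0 → a = b := by decide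
      exact h5 _ _ h3
    rw [Finset.sum_congr rfl h1, ← Finset.sum_union hNQ, hU]
    exact hZ.par y hy

/-- the chain of all `d`-subsets of a set of `d + 1` rows with a positive relation -/
theorem chain_start {V : Type} {I : V → Finset (Fin m)} {G : Finset (Fin m)}
    (hG : G.card = d + 1) (hI : ∀ j ∈ G, ∃ v, G.erase j ⊆ I v)
    {μ : Fin m → ℝ} (hμG : ∀ j, j ∉ G → μ j = 0) (hμ0 : ∑ j, μ j • A j = 0)
    (hμ : ∀ j ∈ G, 0 < μ j)
    (hspan : ∀ y : Fin d → ℝ, ∃ l : Fin m → ℝ, (∀ j, j ∉ G → l j = 0) ∧ ∑ j, l j • A j = y) :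
    IsChain A I (G.image fun j => G.erase j) := by
  have hinj : Set.InjOn (fun j => G.erase j) (G : Set (Fin m)) := by
    intro j hj k hk hjk
    by_contra hne
    have : k ∈ G.erase j := Finset.mem_erase.2 ⟨fun h => hne h.symm, hk⟩
    simp only at hjk
    rw [hjk] at this
    simp at this
  refine ⟨?_, ?_, ?_⟩
  · intro F hF
    obtain ⟨j, hj, rfl⟩ := Finset.mem_image.1 hF
    refine ⟨?_, hI j hj⟩
    rw [Finset.card_erase_of_mem hj, hG]
    rfl
  · intro R hR
    rw [Finset.sum_image hinj]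
    by_cases h : R ⊆ G
    · have h1 : ∀ j ∈ G, (R ⊆ G.erase j ↔ j ∉ R) := by
        intro j _
        constructor
        · intro h2 h3
          simpa using h2 h3
        · intro h2 k hk
          exact Finset.mem_erase.2 ⟨fun h3 => h2 (h3 ▸ hk), h hk⟩
      have h2 : ∑ j ∈ G, (if R ⊆ G.erase j then (1 : ZMod 2) else 0) =
          ∑ j ∈ G, (if j ∉ R then (1 : ZMod 2) else 0) := by
        refine Finset.sum_congr rfl fun j hj => ?_
        simp only [h1 j hj]
      rw [h2, Finset.sum_boole]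
      have h3 : (G.filter fun j => j ∉ R) = G \ R := by
        ext j; simp [Finset.mem_sdiff]
      rw [h3, Finset.card_sdiff_of_subset h, hG]
      have h5 : d + 1 - R.card = 2 := by omega
      rw [h5]
      rfl
    · refine Finset.sum_eq_zero fun j _ => if_neg fun h1 => h (h1.trans (Finset.erase_subset _ _))
  · intro y hy
    rw [Finset.sum_image hinj, Finset.sum_boole]
    obtain ⟨l0, h1, h2⟩ := hspan y
    rw [one_cone hy hG hμG hμ0 hμ h1 h2]
    rfl

/-- a chain supported by index sets gives the inclusion in the convex hull -/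
theorem subset_hull {V : Type} [Finite V] {I : V → Finset (Fin m)} {c : V → Fin d → ℝ}
    {Z : Finset (Finset (Fin m))} (hZ : IsChain A I Z) (hlo : ∀ v, ∀ j ∈ I v, 1 ≤ A j ⬝ᵥ c v)
    {x : Fin d → ℝ} (hx : ∀ v, ∀ j ∈ I v, A j ⬝ᵥ x ≤ 1) :
    x ∈ convexHull ℝ (Set.range c) := by
  by_contra hcon
  have hcl : IsClosed (convexHull ℝ (Set.range c)) :=
    (Set.finite_range c).isClosed_convexHull ℝ
  obtain ⟨f, u, hf1, hf2⟩ := geometric_hahn_banach_closed_point
    (convex_convexHull ℝ (Set.range c)) hcl hcon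
  have hrep : ∀ z : Fin d → ℝ, f z = (fun k => f (Pi.single k 1)) ⬝ᵥ z := by
    intro z
    have h1 : z = ∑ k, z k • (Pi.single k 1 : Fin d → ℝ) := by
      ext k
      simp [Finset.sum_apply, Pi.single_apply]
    conv_lhs => rw [h1]
    rw [map_sum]
    simp only [map_smul, smul_eq_mul, dotProduct]
    exact Finset.sum_congr rfl fun k _ => mul_comm _ _
  have hopen : IsOpen {y : Fin d → ℝ | ∀ v, y ⬝ᵥ c v < y ⬝ᵥ x} := by
    have h1 : {y : Fin d → ℝ | ∀ v, y ⬝ᵥ c v < y ⬝ᵥ x} =
        ⋂ v, {y : Fin d → ℝ | y ⬝ᵥ c v < y ⬝ᵥ x} := by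
      ext y; simp
    rw [h1]
    refine isOpen_iInter_of_finite fun v => isOpen_lt ?_ ?_
    · simp only [dotProduct]; fun_prop
    · simp only [dotProduct]; fun_prop
  obtain ⟨y, hy1, hy2⟩ := (gen_dense A).inter_open_nonempty _ hopen
    ⟨fun k => f (Pi.single k 1), fun v => by
      rw [← hrep, ← hrep]
      exact (hf1 _ (subset_convexHull ℝ _ ⟨v, rfl⟩)).trans hf2⟩
  have h1 := hZ.par y hy2
  obtain ⟨F, hF, hcone⟩ : ∃ F ∈ Z, InCone A F y := by
    by_contra h
    push Not at h
    rw [Finset.sum_eq_zero fun F hF => if_neg (h F hF)] at h1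
    exact absurd h1 (by decide)
  obtain ⟨-, v, hv⟩ := hZ.sub F hF
  obtain ⟨l, hl0, hls, hly⟩ := hcone
  have h2 := hy1 v
  rw [← hly, sum_dot, sum_dot] at h2
  refine absurd h2 (not_lt.2 (Finset.sum_le_sum fun j _ => ?_))
  by_cases hj : j ∈ F
  · exact mul_le_mul_of_nonneg_left ((hx v j (hv hj)).trans (hlo v j (hv hj))) (hl0 j)
  · rw [hls j hj]; simp

end Pool.Agent.R540.ADDM
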