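import Pool.Agent.R540.ADDM.Defs

namespace Pool.Agent.R540.ADDM

open Matrix
open scoped Classical

variable {d m : ℕ} {A : Fin m → Fin d → ℝ}

/-- `y` lies in the cone generated by the rows with index in `F`. -/
def InCone (A : Fin m → Fin d → ℝ) (F : Finset (Fin m)) (y : Fin d → ℝ) : Prop :=
  ∃ l : Fin m → ℝ, (∀ j, 0 ≤ l j) ∧ (∀ j, j ∉ F → l j = 0) ∧ ∑ j, l j • A j = y

/-- `y` is not a combination of fewer than `d` rows. -/
def Gen (A : Fin m → Fin d → ℝ) (y : Fin d → ℝ) : Prop :=
  ∀ l : Fin m → ℝ, ∑ j, l j • A j = y → d ≤ (Finset.univ.filter fun j => l j ≠ 0).card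

theorem sum_add_smul (l μ : Fin m → ℝ) (t : ℝ) :
    ∑ j, (l j + t * μ j) • A j = ∑ j, l j • A j + t • ∑ j, μ j • A j := by
  rw [Finset.smul_sum, ← Finset.sum_add_distrib]
  refine Finset.sum_congr rfl fun j _ => ?_
  rw [add_smul, mul_smul]

theorem sum_dot (l : Fin m → ℝ) (c : Fin d → ℝ) :
    (∑ j, l j • A j) ⬝ᵥ c = ∑ j, l j * (A j ⬝ᵥ c) := by
  have h : ∀ s : Finset (Fin m), (∑ j ∈ s, l j • A j) ⬝ᵥ c = ∑ j ∈ s, l j * (A j ⬝ᵥ c) := by
    intro s
    induction s using Finset.induction_on with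
    | empty => simp
    | insert a s ha ih =>
      rw [Finset.sum_insert ha, Finset.sum_insert ha, add_dotProduct, ih, smul_dotProduct,
        smul_eq_mul]
  exact h _

theorem Gen.card_le {y : Fin d → ℝ} (hy : Gen A y) {l : Fin m → ℝ} (hl : ∑ j, l j • A j = y)
    {F : Finset (Fin m)} (hF : ∀ j, j ∉ F → l j = 0) : d ≤ F.card := by
  refine (hy l hl).trans (Finset.card_le_card fun j hj => ?_)
  by_contra h
  exact (Finset.mem_filter.1 hj).2 (hF j h)

/-- two solutions with support in a set of `d` indices agree -/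
theorem Gen.unique {y : Fin d → ℝ} (hy : Gen A y) {l l' : Fin m → ℝ}
    (hl : ∑ j, l j • A j = y) (hl' : ∑ j, l' j • A j = y)
    {F : Finset (Fin m)} (hF : ∀ j, j ∉ F → l j = 0) (hF' : ∀ j, j ∉ F → l' j = 0)
    (hc : F.card = d) : l = l' := by
  by_contra hne
  obtain ⟨k, hk⟩ : ∃ k, l k - l' k ≠ 0 := by
    by_contra h
    push Not at h
    exact hne (funext fun j => sub_eq_zero.1 (h j))
  have hkF : k ∈ F := by
    by_contra h
    exact hk (by rw [hF k h, hF' k h, sub_zero])
  have hδ : ∑ j, (l j - l' j) • A j = 0 := by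
    simp only [sub_smul, Finset.sum_sub_distrib, hl, hl', sub_self]
  have h1 : ∑ j, (l j + (-(l k / (l k - l' k))) * (l j - l' j)) • A j = y := by
    rw [sum_add_smul, hδ, hl, smul_zero, add_zero]
  have h2 := hy.card_le h1 (F := F.erase k) (by
    intro j hj
    by_cases hjk : j = k
    · subst hjk
      field_simp
      ring
    · have : j ∉ F := fun h => hj (Finset.mem_erase.2 ⟨hjk, h⟩)
      simp [hF j this, hF' j this])
  rw [Finset.card_erase_of_mem hkF] at h2
  have : 0 < F.card := Finset.card_pos.2 ⟨k, hkF⟩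
  omega

/-- a solution with non-negative coefficients and support in a set of `d` indices is positive -/
theorem Gen.pos {y : Fin d → ℝ} (hy : Gen A y) {l : Fin m → ℝ} (h0 : ∀ j, 0 ≤ l j)
    (hl : ∑ j, l j • A j = y) {F : Finset (Fin m)} (hF : ∀ j, j ∉ F → l j = 0)
    (hc : F.card = d) {j : Fin m} (hj : j ∈ F) : 0 < l j := by
  rcases (h0 j).lt_or_eq with h | h
  · exact h
  · exfalso
    have h2 := hy.card_le hl (F := F.erase j) (by
      intro k hk
      by_cases hkj : k = j
      · rw [hkj]; exact h.symm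
      · exact hF k fun h => hk (Finset.mem_erase.2 ⟨hkj, h⟩))
    rw [Finset.card_erase_of_mem hj] at h2
    have : 0 < F.card := Finset.card_pos.2 ⟨j, hj⟩
    omega

/-- `d + 1` rows are linearly dependent -/
theorem exists_relation {G : Finset (Fin m)} (hG : G.card = d + 1) :
    ∃ μ : Fin m → ℝ, (∀ j, j ∉ G → μ j = 0) ∧ ∑ j, μ j • A j = 0 ∧ ∃ j, μ j ≠ 0 := by
  have h : ¬ LinearIndependent ℝ (fun j : G => A j.1) := by
    intro h
    have := h.fintype_card_le_finrank
    rw [Fintype.card_coe, hG, Module.finrank_fin_fun] at this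
    omega
  obtain ⟨g, hg, i, hi⟩ := Fintype.not_linearIndependent_iff.1 h
  refine ⟨fun j => if h : j ∈ G then g ⟨j, h⟩ else 0, fun j hj => by simp [hj], ?_,
    ⟨i.1, by simpa using hi⟩⟩
  rw [← hg, ← Finset.sum_subset (Finset.subset_univ G)]
  · rw [← Finset.sum_coe_sort]
    refine Finset.sum_congr rfl fun j _ => ?_
    simp
  · intro j _ hj
    simp [hj]

theorem even_cone {y : Fin d → ℝ} (hy : Gen A y) {G : Finset (Fin m)} (hG : G.card = d + 1)
    {c : Fin d → ℝ} (hc : ∀ j ∈ G, 0 < A j ⬝ᵥ c) :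
    Even (G.filter fun j => InCone A (G.erase j) y).card := by
  rcases (G.filter fun j => InCone A (G.erase j) y).eq_empty_or_nonempty with he | ⟨j0, hj0⟩
  · rw [he]; simp
  obtain ⟨hj0G, l0, hl0, hs0, hy0⟩ := Finset.mem_filter.1 hj0
  have hcard : ∀ j ∈ G, (G.erase j).card = d := fun j hj => by
    rw [Finset.card_erase_of_mem hj, hG]; rfl
  have hpos : ∀ j ∈ G, j ≠ j0 → 0 < l0 j := fun j hj hne =>
    hy.pos hl0 hy0 hs0 (hcard j0 hj0G) (Finset.mem_erase.2 ⟨hne, hj⟩)
  have hz0 : l0 j0 = 0 := hs0 j0 (by simp)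
  have hl0G : ∀ j, j ∉ G → l0 j = 0 := fun j hj => hs0 j fun h => hj (Finset.mem_of_mem_erase h)
  -- the kernel
  obtain ⟨μ, hμG, hμ0, hμne, hμ1⟩ : ∃ μ : Fin m → ℝ, (∀ j, j ∉ G → μ j = 0) ∧
      ∑ j, μ j • A j = 0 ∧ True ∧ μ j0 = 1 := by
    obtain ⟨ν, h1, h2, k, hk⟩ := exists_relation (A := A) hG
    have h3 : ν j0 ≠ 0 := by
      intro h3
      have h4 : ∑ j, (l0 j + 1 * ν j) • A j = y := by
        rw [sum_add_smul, h2, smul_zero, add_zero, hy0]
      have h5 := hy.unique h4 hy0 (F := G.erase j0) (by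
        intro j hj
        rw [hs0 j hj]
        by_cases hjj : j = j0
        · rw [hjj, h3]; ring
        · rw [h1 j fun h => hj (Finset.mem_erase.2 ⟨hjj, h⟩)]; ring) hs0 (hcard j0 hj0G)
      have h6 := congrFun h5 k
      exact hk (by linarith)
    refine ⟨fun j => (ν j0)⁻¹ * ν j, fun j hj => by simp only [h1 j hj, mul_zero], ?_, trivial,
      inv_mul_cancel₀ h3⟩
    have : ∑ j, ((ν j0)⁻¹ * ν j) • A j = (ν j0)⁻¹ • ∑ j, ν j • A j := by
      rw [Finset.smul_sum]
      exact Finset.sum_congr rfl fun j _ => by rw [mul_smul]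
    rw [this, h2, smul_zero]
  -- every solution with support in `G`
  have hsol : ∀ l : Fin m → ℝ, (∀ j, j ∉ G → l j = 0) → ∑ j, l j • A j = y →
      ∀ j, l j = l0 j + l j0 * μ j := by
    intro l hl hly j
    have h4 : ∑ k, (l k + (-(l j0)) * μ k) • A k = y := by
      rw [sum_add_smul, hμ0, smul_zero, add_zero, hly]
    have h5 := hy.unique h4 hy0 (F := G.erase j0) (by
      intro k hk
      by_cases hkk : k = j0
      · rw [hkk, hμ1]; ring
      · have : k ∉ G := fun h => hk (Finset.mem_erase.2 ⟨hkk, h⟩)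
        rw [hl k this, hμG k this]; ring) hs0 (hcard j0 hj0G)
    have h6 := congrFun h5 j
    linarith
  -- some coefficient of the relation is negative
  obtain ⟨j', hj'⟩ : ∃ j, μ j < 0 := by
    by_contra hcon
    push Not at hcon
    have h1 : (∑ j, μ j • A j) ⬝ᵥ c = 0 := by rw [hμ0]; simp
    rw [sum_dot] at h1
    have h3 : ∀ j ∈ Finset.univ, 0 ≤ μ j * (A j ⬝ᵥ c) := by
      intro j _
      by_cases hj : j ∈ G
      · exact mul_nonneg (hcon j) (hc j hj).le
      · rw [hμG j hj, zero_mul]
    have h4 := (Finset.sum_eq_zero_iff_of_nonneg h3).1 h1 j0 (Finset.mem_univ _)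
    rw [hμ1, one_mul] at h4
    exact (hc j0 hj0G).ne' h4
  obtain ⟨j1, hj1, hmin⟩ := Finset.exists_min_image (Finset.univ.filter fun j => μ j < 0)
    (fun j => l0 j / (-μ j)) ⟨j', by simpa using hj'⟩
  have hj1n : μ j1 < 0 := (Finset.mem_filter.1 hj1).2
  have hj1G : j1 ∈ G := by
    by_contra h
    rw [hμG j1 h] at hj1n
    exact lt_irrefl _ hj1n
  have hj01 : j0 ≠ j1 := by
    intro h
    rw [← h, hμ1] at hj1n
    linarith
  have ht1 : 0 < l0 j1 / (-μ j1) := div_pos (hpos j1 hj1G hj01.symm) (by linarith)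
  have hkey : (G.filter fun j => InCone A (G.erase j) y) = {j0, j1} := by
    ext j
    rw [Finset.mem_filter, Finset.mem_insert, Finset.mem_singleton]
    constructor
    · rintro ⟨hjG, l, hl, hs, hly⟩
      have hlG : ∀ k, k ∉ G → l k = 0 := fun k hk => hs k fun h => hk (Finset.mem_of_mem_erase h)
      have hlj : l j = 0 := hs j (by simp)
      have hform := hsol l hlG hly
      by_contra hcon
      push Not at hcon
      obtain ⟨hne0, hne1⟩ := hcon
      have h1 := hform j
      have h2 := hform j1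
      have hp := hpos j hjG hne0
      have ht : 0 ≤ l j0 := hl j0
      have hμj : μ j < 0 := by
        by_contra h
        push Not at h
        have : 0 ≤ l j0 * μ j := mul_nonneg ht h
        linarith
      have h3 : l j0 = l0 j / (-μ j) := by
        rw [eq_div_iff (by linarith)]
        linarith
      have h4 : l0 j1 / (-μ j1) ≤ l0 j / (-μ j) := hmin j (by simpa using hμj)
      have h5 : l j0 ≤ l0 j1 / (-μ j1) := by
        rw [le_div_iff₀ (by linarith)]
        have := hl j1
        linarith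
      have h6 : l j0 = l0 j1 / (-μ j1) := le_antisymm h5 (h3 ▸ h4)
      have h7 : l j1 = 0 := by
        rw [h2, h6]
        have : μ j1 ≠ 0 := hj1n.ne
        field_simp
        ring
      have h8 := hy.card_le hly (F := (G.erase j).erase j1) (by
        intro k hk
        by_cases hk1 : k = j1
        · rw [hk1]; exact h7
        · exact hs k fun h => hk (Finset.mem_erase.2 ⟨hk1, h⟩))
      rw [Finset.card_erase_of_mem (Finset.mem_erase.2 ⟨fun h => hne1 h.symm, hj1G⟩),
        hcard j hjG] at h8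
      have : 0 < d := by
        have := hcard j hjG
        have h9 : 0 < (G.erase j).card :=
          Finset.card_pos.2 ⟨j1, Finset.mem_erase.2 ⟨fun h => hne1 h.symm, hj1G⟩⟩
        omega
      omega
    · rintro (h | h)
      · rw [h]
        exact ⟨hj0G, l0, hl0, hs0, hy0⟩
      · rw [h]
        refine ⟨hj1G, fun k => l0 k + (l0 j1 / (-μ j1)) * μ k, ?_, ?_, ?_⟩
        · intro k
          by_cases hk : μ k < 0
          · have h1 : l0 j1 / (-μ j1) ≤ l0 k / (-μ k) := hmin k (by simpa using hk)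
            rw [le_div_iff₀ (by linarith)] at h1
            linarith
          · push Not at hk
            have := mul_nonneg ht1.le hk
            have := hl0 k
            linarith
        · intro k hk
          show l0 k + (l0 j1 / (-μ j1)) * μ k = 0
          by_cases hk1 : k = j1
          · rw [hk1]
            have : μ j1 ≠ 0 := hj1n.ne
            field_simp
            ring
          · have : k ∉ G := fun h => hk (Finset.mem_erase.2 ⟨hk1, h⟩)
            rw [hl0G k this, hμG k this]; ring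
        · rw [sum_add_smul, hμ0, smul_zero, add_zero, hy0]
  rw [hkey, Finset.card_pair hj01]
  exact ⟨1, rfl⟩

/-- with a positive relation, exactly one of the cones contains `y` -/
theorem one_cone {y : Fin d → ℝ} (hy : Gen A y) {G : Finset (Fin m)} (hG : G.card = d + 1)
    {μ : Fin m → ℝ} (hμG : ∀ j, j ∉ G → μ j = 0) (hμ0 : ∑ j, μ j • A j = 0)
    (hμ : ∀ j ∈ G, 0 < μ j) {l0 : Fin m → ℝ} (hl0G : ∀ j, j ∉ G → l0 j = 0)
    (hy0 : ∑ j, l0 j • A j = y) :
    (G.filter fun j => InCone A (G.erase j) y).card = 1 := by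
  have hcard : ∀ j ∈ G, (G.erase j).card = d := fun j hj => by
    rw [Finset.card_erase_of_mem hj, hG]; rfl
  have hne : G.Nonempty := Finset.card_pos.1 (by omega)
  obtain ⟨j1, hj1, hmin⟩ := Finset.exists_min_image G (fun j => l0 j / μ j) hne
  rw [Finset.card_eq_one]
  refine ⟨j1, ?_⟩
  have hsolj : ∀ j ∈ G, ∑ k, (l0 k + (-(l0 j / μ j)) * μ k) • A k = y := by
    intro j hj
    rw [sum_add_smul, hμ0, smul_zero, add_zero, hy0]
  have hsupp : ∀ j ∈ G, ∀ k, k ∉ G.erase j → l0 k + (-(l0 j / μ j)) * μ k = 0 := by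
    intro j hj k hk
    by_cases hkj : k = j
    · rw [hkj]
      have : μ j ≠ 0 := (hμ j hj).ne'
      field_simp
      ring
    · have : k ∉ G := fun h => hk (Finset.mem_erase.2 ⟨hkj, h⟩)
      rw [hl0G k this, hμG k this]; ring
  ext j
  rw [Finset.mem_filter, Finset.mem_singleton]
  constructor
  · rintro ⟨hjG, l, hl, hs, hly⟩
    have h1 := hy.unique (hsolj j hjG) hly (hsupp j hjG) hs (hcard j hjG)
    have h2 := hl j1
    rw [← h1] at h2
    have hm1 := hμ j1 hj1
    have hmj := hμ j hjG
    have h3 : l0 j / μ j ≤ l0 j1 / μ j1 := by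
      rw [le_div_iff₀ hm1]
      linarith
    have h4 : l0 j1 / μ j1 ≤ l0 j / μ j := hmin j hjG
    have h5 : l0 j / μ j = l0 j1 / μ j1 := le_antisymm h3 h4
    by_contra hne1
    have h6 := hy.card_le (hsolj j hjG) (F := (G.erase j).erase j1) (by
      intro k hk
      by_cases hk1 : k = j1
      · rw [hk1, h5]
        field_simp
        ring
      · exact hsupp j hjG k fun h => hk (Finset.mem_erase.2 ⟨hk1, h⟩))
    have h7 : j1 ∈ G.erase j := Finset.mem_erase.2 ⟨fun h => hne1 h.symm, hj1⟩
    rw [Finset.card_erase_of_mem h7, hcard j hjG] at h6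
    have h9 : 0 < (G.erase j).card := Finset.card_pos.2 ⟨j1, h7⟩
    rw [hcard j hjG] at h9
    omega
  · intro h
    rw [h]
    refine ⟨hj1, _, ?_, hsupp j1 hj1, hsolj j1 hj1⟩
    intro k
    by_cases hk : k ∈ G
    · have h1 := hmin k hk
      have hmk := hμ k hk
      rw [le_div_iff₀ hmk] at h1
      linarith
    · rw [hl0G k hk, hμG k hk]; simp

/-- generic vectors are dense -/
theorem gen_dense (A : Fin m → Fin d → ℝ) : Dense {y | Gen A y} := by
  apply MeasureTheory.Measure.dense_of_ae (μ := MeasureTheory.volume)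
  have h1 : ∀ R : Finset (Fin m), ∀ᵐ y : Fin d → ℝ, R.card < d →
      y ∉ Submodule.span ℝ (A '' (R : Set (Fin m))) := by
    intro R
    by_cases hR : R.card < d
    · have h2 : Submodule.span ℝ (A '' (R : Set (Fin m))) ≠ ⊤ := by
        intro h
        have h3 : Module.finrank ℝ (Submodule.span ℝ (A '' (R : Set (Fin m)))) ≤ R.card := by
          have := finrank_span_finset_le_card (R := ℝ) (R.image A)
          rw [Finset.coe_image] at this
          exact this.trans Finset.card_image_le
        rw [h, finrank_top, Module.finrank_fin_fun] at h3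
        omega
      have h3 := MeasureTheory.Measure.addHaar_submodule MeasureTheory.volume _ h2
      rw [MeasureTheory.measure_eq_zero_iff_ae_notMem] at h3
      filter_upwards [h3] with y hy _ using hy
    · filter_upwards with y h using absurd h hR
  filter_upwards [MeasureTheory.ae_all_iff.2 h1] with y hy
  intro l hl
  by_contra hcon
  push Not at hcon
  refine hy _ hcon ?_
  rw [← hl, ← Finset.sum_filter_add_sum_filter_not Finset.univ (fun j => l j ≠ 0)]
  refine Submodule.add_mem _ (Submodule.sum_mem _ fun j hj => Submodule.smul_mem _ _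
    (Submodule.subset_span ⟨j, by simpa using hj, rfl⟩)) ?_
  rw [Finset.sum_eq_zero]
  · exact Submodule.zero_mem _
  · intro j hj
    have : l j = 0 := by simpa using hj
    rw [this, zero_smul]

end Pool.Agent.R540.ADDM
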