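import Mathlib

/-!
# The approximate double description method (ADDM): definitions

Row `j` (`1 ≤ j ≤ m`) of the matrix `A` of the problem is the value of `A : Fin m → Fin d → ℝ` at
the index with value `j - 1`; so the rows `1, …, d + 1` are those with `k.val < d + 1`.
-/

namespace Pool.Agent.R540.ADDM

open Matrix
open scoped Classical

/-- The data kept by the method: a finite graph with node set `V` and edge relation `E`, and for
every node `v` a point `c v` and an index set `I v`. -/
structure State (d m : ℕ) where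
  V : Type
  finite : Finite V
  E : V → V → Prop
  c : V → Fin d → ℝ
  I : V → Finset (Fin m)

variable {d m : ℕ}

/-- `(1 + t) P = {x | A x ≤ (1 + t) 𝟙}`; so `scaled A 0` is `P` itself. -/
def scaled (A : Fin m → Fin d → ℝ) (t : ℝ) : Set (Fin d → ℝ) := {x | ∀ j, A j ⬝ᵥ x ≤ 1 + t}

/-- The set `S` given by the first `d + 1` inequalities. -/
def firstRows (A : Fin m → Fin d → ℝ) : Set (Fin d → ℝ) :=
  {x | ∀ j : Fin m, j.val < d + 1 → A j ⬝ᵥ x ≤ 1}

/-- An admissible input: `P` is bounded, `S` is a `d`-simplex, `0 ≤ ε`. -/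
structure Admissible (A : Fin m → Fin d → ℝ) (ε : ℝ) : Prop where
  rows : d + 1 ≤ m
  eps : 0 ≤ ε
  bounded : Bornology.IsBounded (scaled A 0)
  simplex : ∃ p : Fin (d + 1) → Fin d → ℝ,
    AffineIndependent ℝ p ∧ firstRows A = convexHull ℝ (Set.range p)

/-- The start: nodes `v_1, …, v_{d+1}`, complete graph; `c(v_j)` is the point with
`A_k c(v_j) = 1 + ε / 2` for all `k ∈ [d+1] \ {j}`, and `I(v_j) = [d+1] \ {j}`. -/
def IsStart (A : Fin m → Fin d → ℝ) (ε : ℝ) (s : State d m) : Prop :=
  ∃ c : Fin (d + 1) → Fin d → ℝ,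
    (∀ (j : Fin (d + 1)) (k : Fin m), k.val < d + 1 → k.val ≠ j.val →
      A k ⬝ᵥ c j = 1 + ε / 2) ∧
    s = { V := Fin (d + 1)
          finite := inferInstance
          E := fun u w => u ≠ w
          c := c
          I := fun j => Finset.univ.filter fun k : Fin m => k.val < d + 1 ∧ k.val ≠ j.val }

/-- Step (a): the choice of disjoint `V₋ ≠ ∅`, `V₀`, `V₊` with union `V`. -/
structure Split (A : Fin m → Fin d → ℝ) (ε : ℝ) (i : Fin m) (s : State d m) where
  neg : Set s.V
  zero : Set s.V
  pos : Set s.V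
  disjoint_neg_zero : Disjoint neg zero
  disjoint_neg_pos : Disjoint neg pos
  disjoint_zero_pos : Disjoint zero pos
  union_eq : neg ∪ zero ∪ pos = Set.univ
  neg_nonempty : neg.Nonempty
  neg_lt : ∀ v ∈ neg, A i ⬝ᵥ s.c v < 1 + ε / 2
  pos_gt : ∀ v ∈ pos, 1 + ε / 2 < A i ⬝ᵥ s.c v
  zero_mem : ∀ v ∈ zero, 1 ≤ A i ⬝ᵥ s.c v ∧ A i ⬝ᵥ s.c v ≤ 1 + ε

variable {A : Fin m → Fin d → ℝ} {ε : ℝ} {i : Fin m} {s : State d m}

/-- The edges `uw ∈ E` with `u ∈ V₋`, `w ∈ V₊`. -/
def Split.Cross (S : Split A ε i s) : Type :=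
  {e : s.V × s.V // e.1 ∈ S.neg ∧ e.2 ∈ S.pos ∧ s.E e.1 e.2}

/-- Step (b): the points allowed for the node created for the edge `uw`. -/
def IsNewPoint (A : Fin m → Fin d → ℝ) (ε : ℝ) (i : Fin m) (cu cw x : Fin d → ℝ) : Prop :=
  x ∈ segment ℝ cu cw ∧ 1 ≤ A i ⬝ᵥ x ∧ A i ⬝ᵥ x ≤ 1 + ε

/-- The nodes after the steps (b) and (d): the old ones which are not in `V₊`, and a new one for
every crossing edge. -/
def Split.NewV (S : Split A ε i s) : Type := {v : s.V // v ∉ S.pos} ⊕ S.Cross

/-- The index sets after the steps (b) and (c). -/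
noncomputable def Split.newI (S : Split A ε i s) : S.NewV → Finset (Fin m) :=
  Sum.elim (fun v => if v.1 ∈ S.zero then insert i (s.I v.1) else s.I v.1)
    (fun e => insert i (s.I e.1.1 ∩ s.I e.1.2))

/-- The state after the steps (b), (c), (d), (e), where `x e` is the point chosen for the node
created for the crossing edge `e`. -/
noncomputable def Split.next (S : Split A ε i s) (x : S.Cross → Fin d → ℝ) : State d m where
  V := S.NewV
  finite := by
    have := s.finite
    have h1 : Finite {v : s.V // v ∉ S.pos} := inferInstance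
    have h2 : Finite S.Cross := by unfold Split.Cross; infer_instance
    unfold Split.NewV
    infer_instance
  E := fun u w => u ≠ w ∧ d - 1 ≤ (S.newI u ∩ S.newI w).card
  c := Sum.elim (fun v => s.c v.1) x
  I := S.newI

/-- `Reach A ε n s`: the state `s` can occur in a run after the first `n` rows have been
processed. -/
inductive Reach (A : Fin m → Fin d → ℝ) (ε : ℝ) : ℕ → State d m → Prop
  | start (s : State d m) (h : IsStart A ε s) : Reach A ε (d + 1) s
  | step (i : Fin m) (s : State d m) (h : Reach A ε i.val s) (S : Split A ε i s)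
      (x : S.Cross → Fin d → ℝ)
      (hx : ∀ e : S.Cross, IsNewPoint A ε i (s.c e.1.1) (s.c e.1.2) (x e)) :
      Reach A ε (i.val + 1) (S.next x)

/-- ADDM is correct in dimension `d`: for every admissible input,
(1) the start can be carried out,
(2) whenever a state has been reached and row `i` has to be processed, a choice as in step (a)
exists, and for every such choice and every edge `uw` with `u ∈ V₋`, `w ∈ V₊` there is a point as
required in step (b), and
(3) for every state that can be reached after all rows have been processed, the output `c(V)`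
satisfies `P ⊆ conv c(V) ⊆ (1 + ε) P`. -/
def CorrectInDimension (d : ℕ) : Prop :=
  ∀ (m : ℕ) (A : Fin m → Fin d → ℝ) (ε : ℝ), Admissible A ε →
    (∃ s, IsStart A ε s) ∧
    (∀ (i : Fin m) (s : State d m), Reach A ε i.val s →
      Nonempty (Split A ε i s) ∧
      ∀ (S : Split A ε i s) (e : S.Cross), ∃ x, IsNewPoint A ε i (s.c e.1.1) (s.c e.1.2) x) ∧
    (∀ s : State d m, Reach A ε m s →
      scaled A 0 ⊆ convexHull ℝ (Set.range s.c) ∧
      convexHull ℝ (Set.range s.c) ⊆ scaled A ε)

end Pool.Agent.R540.ADDM
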