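import Pool.Agent.R540.ADDM.Chain

namespace Pool.Agent.R540.ADDM

open Matrix
open scoped Classical

variable {d m : ℕ} {A : Fin m → Fin d → ℝ} {ε : ℝ}

/-- the first `d + 1` row indices -/
noncomputable def G0 (d m : ℕ) : Finset (Fin m) := Finset.univ.filter fun k => k.val < d + 1

theorem mem_G0 {k : Fin m} : k ∈ G0 d m ↔ k.val < d + 1 := by simp [G0]

theorem card_G0 (h : d + 1 ≤ m) : (G0 d m).card = d + 1 := by
  have : G0 d m = (Finset.univ : Finset (Fin (d + 1))).map (Fin.castLEEmb h) := by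
    ext k
    rw [mem_G0, Finset.mem_map]
    constructor
    · intro hk
      exact ⟨⟨k.val, hk⟩, Finset.mem_univ _, by ext; simp⟩
    · rintro ⟨j, -, rfl⟩
      exact j.2
  rw [this, Finset.card_map, Finset.card_univ, Fintype.card_fin]

theorem Admissible.ray (h : Admissible A ε) {z : Fin d → ℝ}
    (hz : ∀ k : Fin m, k.val < d + 1 → A k ⬝ᵥ z ≤ 0) : z = 0 := by
  obtain ⟨p, -, hp⟩ := h.simplex
  have hb : Bornology.IsBounded (firstRows A) := by
    rw [hp]
    exact ((Set.finite_range p).isCompact_convexHull ℝ).isBounded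
  obtain ⟨C, hC⟩ := isBounded_iff_forall_norm_le.1 hb
  by_contra hne
  have hn : 0 < ‖z‖ := norm_pos_iff.2 hne
  have hC0 : 0 ≤ C := by
    have := hC 0 (by intro k _; simp)
    simpa using this
  have h1 := hC (((C + 1) / ‖z‖) • z) (by
    intro k hk
    rw [dotProduct_smul, smul_eq_mul]
    have h2 := hz k hk
    have h3 : 0 ≤ (C + 1) / ‖z‖ := by positivity
    nlinarith)
  rw [norm_smul, Real.norm_of_nonneg (by positivity), div_mul_cancel₀ _ hn.ne'] at h1
  linarith

theorem Admissible.surj (h : Admissible A ε) {j : Fin m} (hj : j ∈ G0 d m) (b : Fin m → ℝ) :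
    ∃ z : Fin d → ℝ, ∀ k ∈ (G0 d m).erase j, A k ⬝ᵥ z = b k := by
  let L : (Fin d → ℝ) →ₗ[ℝ] (↥((G0 d m).erase j) → ℝ) :=
    { toFun := fun z k => A k.1 ⬝ᵥ z
      map_add' := fun z w => by ext k; simp [dotProduct_add]
      map_smul' := fun t z => by ext k; simp [dotProduct_smul] }
  have hinj : Function.Injective L := by
    rw [← LinearMap.ker_eq_bot, LinearMap.ker_eq_bot']
    intro z hz
    have h1 : ∀ k ∈ (G0 d m).erase j, A k ⬝ᵥ z = 0 := fun k hk => congrFun hz ⟨k, hk⟩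
    rcases le_total (A j ⬝ᵥ z) 0 with h2 | h2
    · refine h.ray fun k hk => ?_
      by_cases hkj : k = j
      · rw [hkj]; exact h2
      · exact (h1 k (Finset.mem_erase.2 ⟨hkj, mem_G0.2 hk⟩)).le
    · have h3 : -z = 0 := h.ray fun k hk => by
        rw [dotProduct_neg]
        by_cases hkj : k = j
        · rw [hkj]; linarith
        · rw [h1 k (Finset.mem_erase.2 ⟨hkj, mem_G0.2 hk⟩)]; simp
      simpa using h3
  have hdim : Module.finrank ℝ (Fin d → ℝ) = Module.finrank ℝ (↥((G0 d m).erase j) → ℝ) := by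
    rw [Module.finrank_fin_fun, Module.finrank_fintype_fun_eq_card, Fintype.card_coe,
      Finset.card_erase_of_mem hj, card_G0 h.rows]
    rfl
  have hs := (LinearMap.injective_iff_surjective_of_finrank_eq_finrank hdim).1 hinj
  obtain ⟨z, hz⟩ := hs fun k => b k.1
  exact ⟨z, fun k hk => congrFun hz ⟨k, hk⟩⟩

theorem Admissible.span (h : Admissible A ε) (y : Fin d → ℝ) :
    ∃ l : Fin m → ℝ, (∀ j, j ∉ G0 d m → l j = 0) ∧ ∑ j, l j • A j = y := by
  have hm : 0 < m := by have := h.rows; omega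
  have hj : (⟨0, hm⟩ : Fin m) ∈ G0 d m := mem_G0.2 (by simp)
  set j : Fin m := ⟨0, hm⟩
  let T : (↥((G0 d m).erase j) → ℝ) →ₗ[ℝ] (Fin d → ℝ) :=
    { toFun := fun l => ∑ k, l k • A k.1
      map_add' := fun z w => by simp [add_smul, Finset.sum_add_distrib]
      map_smul' := fun t z => by simp [mul_smul, Finset.smul_sum] }
  have hinj : Function.Injective T := by
    rw [← LinearMap.ker_eq_bot, LinearMap.ker_eq_bot']
    intro l hl
    obtain ⟨z, hz⟩ := h.surj hj (fun k => if hk : k ∈ (G0 d m).erase j then l ⟨k, hk⟩ else 0)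
    have h1 : (∑ k : ↥((G0 d m).erase j), l k • A k.1) ⬝ᵥ z = 0 := by
      have : (∑ k : ↥((G0 d m).erase j), l k • A k.1) = T l := rfl
      rw [this, hl]; simp
    have h2 : ∀ s : Finset ↥((G0 d m).erase j), (∑ k ∈ s, l k • A k.1) ⬝ᵥ z =
        ∑ k ∈ s, l k * l k := by
      intro s
      induction s using Finset.induction_on with
      | empty => simp
      | insert a s ha ih =>
        rw [Finset.sum_insert ha, Finset.sum_insert ha, add_dotProduct, ih, smul_dotProduct,
          smul_eq_mul, hz a.1 a.2]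
        simp
    rw [h2] at h1
    have h3 := (Finset.sum_eq_zero_iff_of_nonneg fun k _ => mul_self_nonneg (l k)).1 h1
    ext k
    exact mul_self_eq_zero.1 (h3 k (Finset.mem_univ _))
  have hdim : Module.finrank ℝ (↥((G0 d m).erase j) → ℝ) = Module.finrank ℝ (Fin d → ℝ) := by
    rw [Module.finrank_fin_fun, Module.finrank_fintype_fun_eq_card, Fintype.card_coe,
      Finset.card_erase_of_mem hj, card_G0 h.rows]
    rfl
  have hs := (LinearMap.injective_iff_surjective_of_finrank_eq_finrank hdim).1 hinj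
  obtain ⟨l, hl⟩ := hs y
  refine ⟨fun k => if hk : k ∈ (G0 d m).erase j then l ⟨k, hk⟩ else 0, ?_, ?_⟩
  · intro k hk
    exact dif_neg fun h => hk (Finset.mem_of_mem_erase h)
  · rw [← hl]
    show _ = ∑ k : ↥((G0 d m).erase j), l k • A k.1
    rw [← Finset.sum_subset (Finset.subset_univ ((G0 d m).erase j))]
    · rw [← Finset.sum_coe_sort]
      refine Finset.sum_congr rfl fun k _ => ?_
      show (if hk : k.1 ∈ (G0 d m).erase j then l ⟨k.1, hk⟩ else 0) • A k.1 = _
      rw [dif_pos k.2]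
    · intro k _ hk
      show (if hk : k ∈ (G0 d m).erase j then l ⟨k, hk⟩ else 0) • A k = _
      rw [dif_neg hk, zero_smul]

theorem Admissible.relation (h : Admissible A ε) :
    ∃ μ : Fin m → ℝ, (∀ j, j ∉ G0 d m → μ j = 0) ∧ ∑ j, μ j • A j = 0 ∧
      ∀ j ∈ G0 d m, 0 < μ j := by
  obtain ⟨ν, h1, h2, j0, hj0⟩ := exists_relation (A := A) (card_G0 h.rows)
  obtain ⟨μ, h3, h4, j1, hj1⟩ : ∃ μ : Fin m → ℝ, (∀ j, j ∉ G0 d m → μ j = 0) ∧
      ∑ j, μ j • A j = 0 ∧ ∃ j, 0 < μ j := by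
    rcases lt_or_gt_of_ne hj0 with h5 | h5
    · refine ⟨fun j => -ν j, fun j hj => by simp only [h1 j hj, neg_zero], ?_, j0, by
        simpa using h5⟩
      simp only [neg_smul, Finset.sum_neg_distrib, h2, neg_zero]
    · exact ⟨ν, h1, h2, j0, h5⟩
  refine ⟨μ, h3, h4, fun k hk => ?_⟩
  by_contra hcon
  push Not at hcon
  have hj1G : j1 ∈ G0 d m := by
    by_contra h5
    rw [h3 j1 h5] at hj1
    exact lt_irrefl _ hj1
  have hne : j1 ≠ k := by
    intro h5
    rw [h5] at hj1
    linarith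
  obtain ⟨z, hz⟩ := h.surj hk fun j => if j = j1 then -1 else 0
  have h5 : ∑ j, μ j * (A j ⬝ᵥ z) = 0 := by rw [← sum_dot, h4]; simp
  have h6 : ∑ j, μ j * (A j ⬝ᵥ z) = μ k * (A k ⬝ᵥ z) + μ j1 * (A j1 ⬝ᵥ z) := by
    rw [← Finset.sum_subset (Finset.subset_univ {k, j1}), Finset.sum_pair hne.symm]
    intro j _ hj
    rw [Finset.mem_insert, Finset.mem_singleton, not_or] at hj
    by_cases hjG : j ∈ G0 d m
    · rw [hz j (Finset.mem_erase.2 ⟨hj.1, hjG⟩), if_neg hj.2, mul_zero]
    · rw [h3 j hjG, zero_mul]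
  have h7 : A j1 ⬝ᵥ z = -1 := by
    rw [hz j1 (Finset.mem_erase.2 ⟨hne, hj1G⟩), if_pos rfl]
  rw [h6, h7] at h5
  have h8 : A k ⬝ᵥ z < 0 := by
    by_contra h9
    push Not at h9
    have := mul_nonpos_of_nonpos_of_nonneg hcon h9
    linarith
  have h9 : z = 0 := h.ray fun j hj => by
    by_cases hjk : j = k
    · rw [hjk]; exact h8.le
    · rw [hz j (Finset.mem_erase.2 ⟨hjk, mem_G0.2 hj⟩)]
      split_ifs <;> norm_num
  rw [h9] at h7
  simp at h7

/-- The invariant. -/
structure Inv (A : Fin m → Fin d → ℝ) (ε : ℝ) (n : ℕ) (s : State d m) : Prop where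
  lo : ∀ v, ∀ j ∈ s.I v, 1 ≤ A j ⬝ᵥ s.c v
  lt : ∀ v, ∀ j ∈ s.I v, j.val < n
  hi : ∀ v, ∀ j : Fin m, j.val < n → A j ⬝ᵥ s.c v ≤ 1 + ε
  edge : ∀ u w, u ≠ w → d - 1 ≤ (s.I u ∩ s.I w).card → s.E u w
  chain : ∃ Z, IsChain A s.I Z

theorem Inv.start (h : Admissible A ε) {s : State d m} (hs : IsStart A ε s) :
    Inv A ε (d + 1) s := by
  obtain ⟨c, hc, rfl⟩ := hs
  obtain ⟨μ, hμ1, hμ2, hμ3⟩ := h.relation
  have he := h.eps
  refine ⟨?_, ?_, ?_, ?_, ?_⟩
  · intro v j hj
    obtain ⟨-, h1, h2⟩ := Finset.mem_filter.1 hj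
    show 1 ≤ A j ⬝ᵥ c v
    rw [hc v j h1 h2]
    linarith
  · intro v j hj
    exact (Finset.mem_filter.1 hj).2.1
  · intro v j hj
    show A j ⬝ᵥ c v ≤ 1 + ε
    by_cases hjv : j.val = v.val
    · have h5 : ∑ k, μ k * (A k ⬝ᵥ c v) = 0 := by rw [← sum_dot, hμ2]; simp
      rw [← Finset.add_sum_erase _ _ (Finset.mem_univ j)] at h5
      have h6 : 0 ≤ ∑ k ∈ Finset.univ.erase j, μ k * (A k ⬝ᵥ c v) := by
        refine Finset.sum_nonneg fun k hk => ?_
        by_cases hkG : k ∈ G0 d m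
        · rw [hc v k (mem_G0.1 hkG) fun h7 => (Finset.mem_erase.1 hk).1
            (Fin.ext (h7.trans hjv.symm))]
          have := hμ3 k hkG
          positivity
        · rw [hμ1 k hkG, zero_mul]
      have h7 := hμ3 j (mem_G0.2 hj)
      have h8 : A j ⬝ᵥ c v ≤ 0 := by
        by_contra h9
        push Not at h9
        have := mul_pos h7 h9
        linarith
      linarith
    · rw [hc v j hj hjv]
      linarith
  · intro u w huw _
    exact huw
  · refine ⟨_, chain_start (card_G0 h.rows) ?_ hμ1 hμ2 hμ3 h.span⟩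
    intro j hj
    refine ⟨(⟨j.val, mem_G0.1 hj⟩ : Fin (d + 1)), fun k hk => ?_⟩
    obtain ⟨h1, h2⟩ := Finset.mem_erase.1 hk
    exact Finset.mem_filter.2 ⟨Finset.mem_univ _, mem_G0.1 h2, fun h3 => h1 (Fin.ext h3)⟩

theorem seg_dot {a u w x : Fin d → ℝ} (hx : x ∈ segment ℝ u w) :
    ∃ s t : ℝ, 0 ≤ s ∧ 0 ≤ t ∧ s + t = 1 ∧ a ⬝ᵥ x = s * (a ⬝ᵥ u) + t * (a ⬝ᵥ w) := by
  obtain ⟨s, t, hs, ht, hst, rfl⟩ := hx
  exact ⟨s, t, hs, ht, hst, by simp [dotProduct_add, dotProduct_smul]⟩

theorem Inv.step (h : Admissible A ε) {i : Fin m} {s : State d m} (hI : Inv A ε i.val s)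
    (S : Split A ε i s) (x : S.Cross → Fin d → ℝ)
    (hx : ∀ e : S.Cross, IsNewPoint A ε i (s.c e.1.1) (s.c e.1.2) (x e)) :
    Inv A ε (i.val + 1) (S.next x) := by
  have he := h.eps
  have hcase : ∀ v, v ∉ S.pos → v ∈ S.neg ∨ v ∈ S.zero := by
    intro v hv
    have : v ∈ S.neg ∪ S.zero ∪ S.pos := by rw [S.union_eq]; trivial
    rcases this with h1 | h1
    · exact h1
    · exact absurd h1 hv
  refine ⟨?_, ?_, ?_, ?_, ?_⟩
  · rintro (v | e) j hj
    · show 1 ≤ A j ⬝ᵥ s.c v.1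
      change j ∈ (if v.1 ∈ S.zero then insert i (s.I v.1) else s.I v.1) at hj
      split_ifs at hj with hz
      · rcases Finset.mem_insert.1 hj with h1 | h1
        · rw [h1]; exact (S.zero_mem _ hz).1
        · exact hI.lo _ _ h1
      · exact hI.lo _ _ hj
    · show 1 ≤ A j ⬝ᵥ x e
      change j ∈ insert i (s.I e.1.1 ∩ s.I e.1.2) at hj
      rcases Finset.mem_insert.1 hj with h1 | h1
      · rw [h1]; exact (hx e).2.1
      · obtain ⟨p, q, hp, hq, hpq, h2⟩ := seg_dot (a := A j) (hx e).1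
        have h3 := hI.lo _ _ (Finset.mem_inter.1 h1).1
        have h4 := hI.lo _ _ (Finset.mem_inter.1 h1).2
        rw [h2]
        nlinarith
  · rintro (v | e) j hj
    · change j ∈ (if v.1 ∈ S.zero then insert i (s.I v.1) else s.I v.1) at hj
      split_ifs at hj with hz
      · rcases Finset.mem_insert.1 hj with h1 | h1
        · rw [h1]; omega
        · have := hI.lt _ _ h1; omega
      · have := hI.lt _ _ hj; omega
    · change j ∈ insert i (s.I e.1.1 ∩ s.I e.1.2) at hj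
      rcases Finset.mem_insert.1 hj with h1 | h1
      · rw [h1]; omega
      · have := hI.lt _ _ (Finset.mem_inter.1 h1).1
        omega
  · rintro (v | e) j hj
    · show A j ⬝ᵥ s.c v.1 ≤ 1 + ε
      rcases Nat.lt_succ_iff_lt_or_eq.1 hj with h1 | h1
      · exact hI.hi _ _ h1
      · rw [Fin.ext h1]
        rcases hcase v.1 v.2 with h2 | h2
        · have := S.neg_lt _ h2
          linarith
        · exact (S.zero_mem _ h2).2
    · show A j ⬝ᵥ x e ≤ 1 + ε
      rcases Nat.lt_succ_iff_lt_or_eq.1 hj with h1 | h1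
      · obtain ⟨p, q, hp, hq, hpq, h2⟩ := seg_dot (a := A j) (hx e).1
        have h3 := hI.hi e.1.1 j h1
        have h4 := hI.hi e.1.2 j h1
        rw [h2]
        have h5 := mul_le_mul_of_nonneg_left h3 hp
        have h6 := mul_le_mul_of_nonneg_left h4 hq
        have h7 : p * (1 + ε) + q * (1 + ε) = 1 + ε := by rw [← add_mul, hpq, one_mul]
        linarith
      · rw [Fin.ext h1]
        exact (hx e).2.2
  · intro u w h1 h2
    exact ⟨h1, h2⟩
  · obtain ⟨Z, hZ⟩ := hI.chain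
    have hQ : ∀ F ∈ Z.filter (fun F => ¬ ∃ v, v ∉ S.pos ∧ F ⊆ s.I v), ∃ w, w ∈ S.pos ∧
        F ⊆ s.I w := by
      intro F hF
      obtain ⟨hF, hn⟩ := Finset.mem_filter.1 hF
      obtain ⟨-, w, hw⟩ := hZ.sub F hF
      refine ⟨w, ?_, hw⟩
      by_contra h1
      exact hn ⟨w, h1, hw⟩
    refine ⟨_, chain_step hZ i ?_
      (N := Z.filter fun F => ∃ v, v ∉ S.pos ∧ F ⊆ s.I v)
      (Q := Z.filter fun F => ¬ ∃ v, v ∉ S.pos ∧ F ⊆ s.I v)
      (Finset.disjoint_filter_filter_not _ _ _) (Finset.filter_union_filter_not_eq _ _) ?_ ?_ ?_⟩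
    · intro F hF hiF
      obtain ⟨-, v, hv⟩ := hZ.sub F hF
      exact lt_irrefl _ (hI.lt v i (hv hiF))
    · intro F hF
      obtain ⟨w, hw, hFw⟩ := hQ F hF
      refine ⟨s.c w, ?_, fun j hj => ?_⟩
      · have := S.pos_gt w hw
        linarith
      · have := hI.lo w j (hFw hj)
        linarith
    · intro F hF
      obtain ⟨-, v, hv, hFv⟩ := Finset.mem_filter.1 hF
      refine ⟨Sum.inl ⟨v, hv⟩, ?_⟩
      show F ⊆ (if v ∈ S.zero then insert i (s.I v) else s.I v)
      split_ifs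
      · exact hFv.trans (Finset.subset_insert _ _)
      · exact hFv
    · intro R hR F hF F' hF' hRF hRF'
      obtain ⟨-, v, hv, hFv⟩ := Finset.mem_filter.1 hF
      obtain ⟨w, hw, hFw⟩ := hQ F' hF'
      rcases hcase v hv with h1 | h1
      · have hne : v ≠ w := fun h2 => hv (h2 ▸ hw)
        have hcard : d - 1 ≤ (s.I v ∩ s.I w).card := by
          have h2 : R ⊆ s.I v ∩ s.I w :=
            Finset.subset_inter (hRF.trans hFv) (hRF'.trans hFw)
          have h3 := Finset.card_le_card h2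
          omega
        refine ⟨Sum.inr ⟨(v, w), h1, hw, hI.edge v w hne hcard⟩, ?_⟩
        show insert i R ⊆ insert i (s.I v ∩ s.I w)
        exact Finset.insert_subset_insert _
          (Finset.subset_inter (hRF.trans hFv) (hRF'.trans hFw))
      · refine ⟨Sum.inl ⟨v, hv⟩, ?_⟩
        show insert i R ⊆ (if v ∈ S.zero then insert i (s.I v) else s.I v)
        rw [if_pos h1]
        exact Finset.insert_subset_insert _ (hRF.trans hFv)

theorem Inv.of_reach (h : Admissible A ε) {n : ℕ} {s : State d m} (hr : Reach A ε n s) :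
    Inv A ε n s := by
  induction hr with
  | start s hs => exact Inv.start h hs
  | step i s _ S x hx ih => exact Inv.step h ih S x hx

theorem Inv.hull {n : ℕ} {s : State d m} (hI : Inv A ε n s) {x : Fin d → ℝ}
    (hx : ∀ j : Fin m, j.val < n → A j ⬝ᵥ x ≤ 1) : x ∈ convexHull ℝ (Set.range s.c) := by
  obtain ⟨Z, hZ⟩ := hI.chain
  have := s.finite
  exact subset_hull hZ hI.lo fun v j hj => hx j (hI.lt v j hj)

theorem halfspace_convex (a : Fin d → ℝ) (t : ℝ) : Convex ℝ {x : Fin d → ℝ | a ⬝ᵥ x ≤ t} := by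
  intro x hx y hy p q hp hq hpq
  show a ⬝ᵥ (p • x + q • y) ≤ t
  have hx' : a ⬝ᵥ x ≤ t := hx
  have hy' : a ⬝ᵥ y ≤ t := hy
  rw [dotProduct_add, dotProduct_smul, dotProduct_smul, smul_eq_mul, smul_eq_mul]
  have h5 := mul_le_mul_of_nonneg_left hx' hp
  have h6 := mul_le_mul_of_nonneg_left hy' hq
  have h7 : p * t + q * t = t := by rw [← add_mul, hpq, one_mul]
  linarith

theorem correct (d : ℕ) : CorrectInDimension d := by
  intro m A ε h
  have he := h.eps
  refine ⟨?_, ?_, ?_⟩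
  · have h1 : ∀ j : Fin (d + 1), ∃ z : Fin d → ℝ, ∀ k : Fin m, k.val < d + 1 →
        k.val ≠ j.val → A k ⬝ᵥ z = 1 + ε / 2 := by
      intro j
      have hj : (⟨j.val, lt_of_lt_of_le j.2 h.rows⟩ : Fin m) ∈ G0 d m := mem_G0.2 j.2
      obtain ⟨z, hz⟩ := h.surj hj fun _ => 1 + ε / 2
      exact ⟨z, fun k hk hkj => hz k (Finset.mem_erase.2
        ⟨fun h2 => hkj (by rw [h2]), mem_G0.2 hk⟩)⟩
    choose c hc using h1
    exact ⟨_, c, hc, rfl⟩
  · intro i s hr
    have hI := Inv.of_reach h hr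
    refine ⟨⟨?_⟩, ?_⟩
    · refine
        { neg := {v | A i ⬝ᵥ s.c v < 1 + ε / 2}
          zero := {v | A i ⬝ᵥ s.c v = 1 + ε / 2}
          pos := {v | 1 + ε / 2 < A i ⬝ᵥ s.c v}
          disjoint_neg_zero := ?_
          disjoint_neg_pos := ?_
          disjoint_zero_pos := ?_
          union_eq := ?_
          neg_nonempty := ?_
          neg_lt := fun v hv => hv
          pos_gt := fun v hv => hv
          zero_mem := ?_ }
      · rw [Set.disjoint_left]
        intro v h1 h2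
        have h1' : A i ⬝ᵥ s.c v < 1 + ε / 2 := h1
        have h2' : A i ⬝ᵥ s.c v = 1 + ε / 2 := h2
        linarith
      · rw [Set.disjoint_left]
        intro v h1 h2
        have h1' : A i ⬝ᵥ s.c v < 1 + ε / 2 := h1
        have h2' : 1 + ε / 2 < A i ⬝ᵥ s.c v := h2
        linarith
      · rw [Set.disjoint_left]
        intro v h1 h2
        have h1' : A i ⬝ᵥ s.c v = 1 + ε / 2 := h1
        have h2' : 1 + ε / 2 < A i ⬝ᵥ s.c v := h2
        linarith
      · ext v
        simp only [Set.mem_union, Set.mem_setOf_eq, Set.mem_univ, iff_true]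
        rcases lt_trichotomy (A i ⬝ᵥ s.c v) (1 + ε / 2) with h1 | h1 | h1
        · exact Or.inl (Or.inl h1)
        · exact Or.inl (Or.inr h1)
        · exact Or.inr h1
      · by_contra hcon
        rw [Set.not_nonempty_iff_eq_empty, Set.eq_empty_iff_forall_notMem] at hcon
        have h1 : (0 : Fin d → ℝ) ∈ convexHull ℝ (Set.range s.c) :=
          hI.hull fun j _ => by simp
        have h2 : convexHull ℝ (Set.range s.c) ⊆ {x | (-A i) ⬝ᵥ x ≤ -1} := by
          refine convexHull_min ?_ (halfspace_convex _ _)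
          rintro _ ⟨v, rfl⟩
          show (-A i) ⬝ᵥ s.c v ≤ -1
          have h3 : ¬ A i ⬝ᵥ s.c v < 1 + ε / 2 := hcon v
          rw [neg_dotProduct]
          linarith
        have h3 : (-A i) ⬝ᵥ (0 : Fin d → ℝ) ≤ -1 := h2 h1
        rw [dotProduct_zero] at h3
        linarith
      · intro v hv
        have hv' : A i ⬝ᵥ s.c v = 1 + ε / 2 := hv
        constructor <;> linarith
    · intro S e
      have h1 := S.neg_lt _ e.2.1
      have h2 := S.pos_gt _ e.2.2.1
      set a := A i ⬝ᵥ s.c e.1.1 with ha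
      set b := A i ⬝ᵥ s.c e.1.2 with hb
      have hab : 0 < b - a := by linarith
      refine ⟨((b - (1 + ε / 2)) / (b - a)) • s.c e.1.1 +
        (((1 + ε / 2) - a) / (b - a)) • s.c e.1.2, ⟨_, _, ?_, ?_, ?_, rfl⟩, ?_⟩
      · exact div_nonneg (by linarith) hab.le
      · exact div_nonneg (by linarith) hab.le
      · rw [← add_div, div_eq_one_iff_eq hab.ne']
        ring
      · have h3 : A i ⬝ᵥ (((b - (1 + ε / 2)) / (b - a)) • s.c e.1.1 +
            (((1 + ε / 2) - a) / (b - a)) • s.c e.1.2) = 1 + ε / 2 := by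
          rw [dotProduct_add, dotProduct_smul, dotProduct_smul, smul_eq_mul, smul_eq_mul,
            ← ha, ← hb]
          field_simp
          ring
        rw [h3]
        constructor <;> linarith
  · intro s hr
    have hI := Inv.of_reach h hr
    constructor
    · intro x hx
      exact hI.hull fun j _ => by simpa using hx j
    · refine convexHull_min ?_ ?_
      · rintro _ ⟨v, rfl⟩ j
        exact hI.hi v j j.2
      · have h1 : scaled A ε = ⋂ j, {x : Fin d → ℝ | A j ⬝ᵥ x ≤ 1 + ε} := by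
          ext x; simp [scaled]
        rw [h1]
        exact convex_iInter fun j => halfspace_convex _ _

end Pool.Agent.R540.ADDM
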